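import Mathlib

namespace Pool.Agent.Results.MP_bb9d96_lc.Tight
open Filter

/-- `X` is defined by forbidding a set of words of length `M + 1` -/
def IsStep {A : Type} (X : Set (ℤ → A)) (M : ℕ) : Prop :=
  ∃ F : Set (Fin (M + 1) → A), X = {x | ∀ i : ℤ, (fun j : Fin (M + 1) => x (i + (j : ℕ))) ∉ F}

/-- label sequences of bi-infinite walks in the deterministic graph with transition map `δ` -/
def pres {A V : Type} (δ : V → A → Option V) : Set (ℤ → A) :=
  {x | ∃ v : ℤ → V, ∀ i, δ (v i) (x i) = some (v (i + 1))}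

/-- least number of vertices of a deterministic presentation -/
noncomputable def sd {A : Type} (X : Set (ℤ → A)) : ℕ :=
  sInf {n | ∃ δ : Fin n → A → Option (Fin n), pres δ = X}

/-- minimum step -/
noncomputable def minStep {A : Type} (X : Set (ℤ → A)) : ℕ := sInf {M | IsStep X M}

inductive L (k : ℕ) | c | a | b | n (j : Fin k) | d (j : Fin k)
  deriving DecidableEq, Fintype

inductive S (k : ℕ) | s (i : Fin k) | t (i : Fin k) (β : Bool) | z | e (i : Fin k)
  deriving DecidableEq, Fintype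

variable {k : ℕ}

def δ : S k → L k → Option (S k)
  | .s i, .c => some (.s i)
  | .s i, .a => some (.t i false)
  | .t i β, .n j => some (if j < i then .t i β else if j = i then (if β then .z else .t i true)
      else if β then .t i false else .z)
  | .t _ β, .b => if β then none else some .z
  | .z, .n _ => some .z
  | .z, .b => some .z
  | .e i, .d j => if j = i then some (.e i) else none
  | _, _ => none

def Val (u j : ℕ) : Prop := u.testBit j = false ∧ ∀ i < j, u.testBit i = true

lemma inc {j : ℕ} : ∀ {u : ℕ}, Val u j → ∀ i, (u + 1).testBit i =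
    if i < j then false else if i = j then true else u.testBit i := by
  induction j with
  | zero =>
    intro u h i
    have : u % 2 = 0 := by simpa using h.1
    rcases i with _ | i
    · simp; omega
    · simp [Nat.testBit_succ, show (u + 1) / 2 = u / 2 by omega]
  | succ j ih =>
    intro u h i
    have : u % 2 = 1 := by simpa using h.2 0 (by omega)
    rcases i with _ | i
    · simp; omega
    · rw [Nat.testBit_succ, show (u + 1) / 2 = u / 2 + 1 by omega, ih ⟨by
        rw [← Nat.testBit_succ]; exact h.1, fun i hi => by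
          rw [← Nat.testBit_succ]; exact h.2 _ (by omega)⟩, Nat.testBit_succ]
      simp

lemma step (i j : Fin k) {u : ℕ} (h : Val u j) :
    δ (.t i (u.testBit i)) (.n j) = some (.t i ((u + 1).testBit i)) := by
  rw [inc h, δ]
  rcases lt_trichotomy j i with h1 | rfl | h1
  · rw [if_pos h1, if_neg (by omega), if_neg (by omega)]
  · simp [h.1]
  · rw [if_neg h1.not_gt, if_neg h1.ne', h.2 i h1, if_pos rfl, if_pos (show (i : ℕ) < j from h1)]

lemma zero_bit {u : ℕ} (h : u < 2 ^ k - 1) : ∃ j : Fin k, Val u j := by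
  have ex : ∃ j, u.testBit j = false ∧ j < k := by
    by_contra hn
    push Not at hn
    have : u % 2 ^ k = 2 ^ k - 1 := Nat.eq_of_testBit_eq fun i => by
      rw [Nat.testBit_mod_two_pow, Nat.testBit_two_pow_sub_one]
      by_cases hi : i < k
      · cases hb : u.testBit i
        · exact absurd hi (not_lt.2 (hn i hb))
        · simp
      · simp [hi]
    have := Nat.mod_le u (2 ^ k)
    omega
  refine ⟨⟨Nat.find ex, (Nat.find_spec ex).2⟩, (Nat.find_spec ex).1, fun i hi => ?_⟩
  have := Nat.find_min ex hi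
  have h2 := (Nat.find_spec ex).2
  cases hb : u.testBit i
  · exact absurd ⟨hb, hi.trans h2⟩ this
  · rfl

def Rule (y : ℕ → L k) : Prop :=
  (y 1 = .c ∨ y 1 = .a ↔ y 0 = .c) ∧ (∀ j, y 0 = .d j ↔ y 1 = .d j) ∧
    ¬ (y 0 = .a ∧ (∀ u < 2 ^ k - 1, ∃ j, y (u + 1) = .n j ∧ Val u j) ∧ y (2 ^ k) = .b)

lemma loc {v w : S k} {l : L k} (h : δ v l = some w) :
    (l = .c ∨ l = .a ↔ ∃ i, v = .s i) ∧ (l = .c ↔ ∃ i, w = .s i) ∧
      ∀ j, (l = .d j ↔ v = .e j) ∧ (l = .d j ↔ w = .e j) := by
  cases v <;> cases l <;> simp only [δ, reduceCtorEq] at h <;> (try split_ifs at h) <;>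
    cases h <;> simp [*]

lemma nec {x : ℤ → L k} (h : x ∈ pres δ) (p : ℤ) : Rule fun u => x (p + u) := by
  obtain ⟨v, hv⟩ := h
  have h0 := hv p
  have h1 := hv (p + 1)
  refine ⟨?_, fun j => ?_, fun ⟨a, b, c⟩ => ?_⟩
  · simp only [Nat.cast_one, Nat.cast_zero, add_zero]
    rw [(loc h1).1, (loc h0).2.1]
  · simp only [Nat.cast_one, Nat.cast_zero, add_zero]
    rw [((loc h1).2.2 j).1, ((loc h0).2.2 j).2]
  · simp only [Nat.cast_zero, add_zero] at a
    beta_reduce at b c
    obtain ⟨i, hi⟩ : ∃ i, v (p + 1) = .t i false := by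
      obtain ⟨i, hi⟩ := (loc h0).1.1 (Or.inr a)
      rw [a, hi] at h0
      exact ⟨i, (Option.some.inj h0).symm⟩
    have : ∀ u ≤ 2 ^ k - 1, v (p + (u + 1 : ℕ)) = .t i (u.testBit i) := fun u hu => by
      induction u with
      | zero => simpa using hi
      | succ u ih =>
        obtain ⟨j, j1, j2⟩ := b u (by omega)
        have := hv (p + (u + 1 : ℕ))
        rw [ih (by omega), j1, step i j j2] at this
        rw [Option.some.inj this]; congr 1; push_cast; ring
    have e := hv (p + (2 ^ k : ℕ))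
    have h2 := this _ le_rfl
    rw [Nat.sub_add_cancel Nat.one_le_two_pow] at h2
    rw [h2, c, Nat.testBit_two_pow_sub_one] at e
    simp [δ] at e

lemma suf {x : ℤ → L (k + 1)} (h : ∀ p : ℤ, Rule fun u => x (p + u)) : x ∈ pres δ := by
  have r1 : ∀ p, (x (p + 1) = .c ∨ x (p + 1) = .a ↔ x p = .c) := fun p => by simpa using (h p).1
  have r2 : ∀ p j, (x p = .d j ↔ x (p + 1) = .d j) := fun p j => by simpa using (h p).2.1 j
  have all : ∀ P : ℤ → Prop, (∀ p, P p ↔ P (p + 1)) → ∀ p, P p ↔ P 0 := fun P hP p => by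
    induction p using Int.induction_on with
    | zero => rfl
    | succ i ih => rw [← hP, ih]
    | pred i ih => rw [hP, sub_add_cancel, ih]
  by_cases hd : ∃ p j, x p = .d j
  · obtain ⟨p, j, hp⟩ := hd
    refine ⟨fun _ => .e j, fun i => ?_⟩
    rw [(all _ (r2 · j) i).2 ((all _ (r2 · j) p).1 hp)]; simp [δ]
  push Not at hd
  have back : ∀ p (u : ℕ), x (p + u) = .c → x p = .c := fun p u => by
    induction u with
    | zero => simp
    | succ u ih => exact fun hh => ih ((r1 _).1 (Or.inl (by rw [← hh]; congr 1; push_cast; ring)))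
  by_cases ha : ∃ p, x p = .a
  swap
  · push Not at ha
    have := all (x · = .c) fun p => by rw [← r1]; simp [ha]
    by_cases h0 : x 0 = .c
    · exact ⟨fun _ => .s 0, fun i => by rw [(this i).2 h0]; rfl⟩
    · refine ⟨fun _ => .z, fun i => ?_⟩
      have a := mt (this i).1 h0
      have b := ha i
      have c := hd i
      generalize x i = l at a b c
      cases l <;> simp [δ] at a b c ⊢
  obtain ⟨p, hp⟩ := ha
  have lo : ∀ m < p, x m = .c := fun m hm => back m (p - 1 - m).toNat (by
    rw [Int.toNat_of_nonneg (by omega), add_sub_cancel]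
    exact (r1 _).1 (Or.inr (by rwa [sub_add_cancel])))
  have hi : ∀ m, p < m → x m = .b ∨ ∃ j, x m = .n j := fun m hm => by
    have : ¬ (x m = .c ∨ x m = .a) := fun hh => by
      have := back p (m - 1 - p).toNat (by
        rw [Int.toNat_of_nonneg (by omega), add_sub_cancel]
        exact (r1 _).1 (by rwa [sub_add_cancel]))
      simp [hp] at this
    have c := hd m
    generalize x m = l at this c
    cases l <;> simp at this c ⊢
  have ex : ∃ u : ℕ, ¬ ∃ j, x (p + (u + 1 : ℕ)) = .n j ∧ Val u j :=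
    ⟨2 ^ (k + 1) - 1, fun ⟨j, _, hj⟩ => by
      have := hj.1
      rw [Nat.testBit_two_pow_sub_one] at this
      simp at this; omega⟩
  classical
  have t1 := Nat.find_spec ex
  have t2 : ∀ u < Nat.find ex, _ := fun u hu => not_not.1 (Nat.find_min ex hu)
  have t3 : Nat.find ex ≤ 2 ^ (k + 1) - 1 := by
    by_contra hh
    obtain ⟨j, -, hj⟩ := t2 _ (not_le.1 hh)
    have := hj.1
    rw [Nat.testBit_two_pow_sub_one] at this
    simp at this; omega
  generalize Nat.find ex = t at *
  obtain ⟨i, hi'⟩ : ∃ i, δ (.t i (t.testBit i)) (x (p + (t + 1 : ℕ))) = some .z := by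
    rcases hi (p + (t + 1 : ℕ)) (by omega) with e | ⟨j, e⟩
    · rcases t3.lt_or_eq with h3 | h3
      · obtain ⟨j, hj⟩ := zero_bit h3
        exact ⟨j, by rw [e, hj.1]; rfl⟩
      · subst h3
        exact absurd ⟨by simpa using hp, t2, by
          rwa [Nat.sub_add_cancel Nat.one_le_two_pow] at e⟩ (h p).2.2
    · rw [e]
      cases hb : t.testBit j
      · obtain ⟨i, i1, i2⟩ : ∃ i < (j : ℕ), t.testBit i = false := by
          by_contra hn
          push Not at hn
          exact t1 ⟨j, e, hb, fun i hi => by simpa using hn i hi⟩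
        have : (⟨i, i1.trans j.2⟩ : Fin (k + 1)) < j := i1
        exact ⟨⟨i, i1.trans j.2⟩, by simp [δ, i2, this.not_gt, this.ne']⟩
      · exact ⟨j, by simp [δ, hb]⟩
  refine ⟨fun m => if m ≤ p then .s i else if m ≤ p + 1 + t then
    .t i ((m - p - 1).toNat.testBit i) else .z, fun m => ?_⟩
  beta_reduce
  rcases lt_trichotomy m p with h1 | rfl | h1
  · rw [if_pos h1.le, if_pos (by omega), lo m h1]; rfl
  · rw [if_pos le_rfl, if_neg (by omega), if_pos (by omega), hp]; simp [δ]
  obtain ⟨u, rfl⟩ : ∃ u : ℕ, m = p + (u + 1 : ℕ) := ⟨(m - p - 1).toNat, by omega⟩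
  rw [if_neg (by omega), if_neg (show ¬ p + (u + 1 : ℕ) + 1 ≤ p by omega)]
  rcases lt_trichotomy u t with h2 | rfl | h2
  · obtain ⟨j, j1, j2⟩ := t2 u h2
    rw [if_pos (by omega), if_pos (by omega), j1,
      show (p + (u + 1 : ℕ) - p - 1).toNat = u by omega,
      show (p + (u + 1 : ℕ) + 1 - p - 1).toNat = u + 1 by omega, step i j j2]
  · rw [if_pos (by omega), if_neg (by omega), show (p + (u + 1 : ℕ) - p - 1).toNat = u by omega, hi']
  · rw [if_neg (by omega), if_neg (by omega)]
    rcases hi _ h1 with e | ⟨j, e⟩ <;> rw [e] <;> rfl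

lemma isStep : IsStep (pres (δ (k := k + 1))) (2 ^ (k + 1)) := by
  refine ⟨{w | ∀ y : ℕ → L (k + 1), (∀ j : Fin _, y j = w j) → ¬ Rule y}, Set.ext fun x =>
    ⟨fun h p hp => hp _ (fun _ => rfl) (nec h p), fun h => suf fun p => ?_⟩⟩
  have := h p
  simp only [Set.mem_ofPred_eq, not_forall, not_not] at this
  obtain ⟨y, y1, y2⟩ := this
  have e : ∀ u ≤ 2 ^ (k + 1), x (p + (u : ℕ)) = y u := fun u hu => (y1 ⟨u, by omega⟩).symm
  have o : 1 ≤ 2 ^ (k + 1) := Nat.one_le_two_pow
  refine ⟨by simpa only [e 0 (by omega), e 1 o] using y2.1,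
    by simpa only [e 0 (by omega), e 1 o] using y2.2.1, fun ⟨a, b, c⟩ => y2.2.2
      ⟨e 0 (by omega) ▸ a, fun u hu => e (u + 1) (by omega) ▸ b u hu, e _ le_rfl ▸ c⟩⟩

lemma long {M : ℕ} (h : IsStep (pres (δ (k := k + 1))) M) : 2 ^ (k + 1) ≤ M := by
  by_contra hM
  obtain ⟨F, hF⟩ := h
  choose! z hz using fun u => @zero_bit (k + 1) u
  have o : 1 ≤ 2 ^ (k + 1) := Nat.one_le_two_pow
  let g : L (k + 1) → L (k + 1) → L (k + 1) → ℤ → L (k + 1) := fun l m r i =>
    if i < 0 then l else if i = 0 then m else if i < (2 ^ (k + 1) : ℕ) then .n (z (i - 1).toNat) else r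
  have h1 : g .c .a (.n 0) ∈ pres δ := suf fun p => ⟨by
    simp only [g]; split_ifs <;> simp <;> omega, fun j => by simp only [g]; split_ifs <;> simp,
    fun h => by have := h.2.2; simp only [g] at this; split_ifs at this⟩
  have h2 : g .b .b .b ∈ pres δ := suf fun p => ⟨by
    simp only [g]; split_ifs <;> simp, fun j => by simp only [g]; split_ifs <;> simp,
    fun h => by have := h.1; simp only [g] at this; split_ifs at this⟩
  have h3 : g .c .a .b ∈ pres δ := by
    rw [hF] at h1 h2 ⊢
    intro i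
    by_cases hi : i ≤ 0
    · convert h1 i using 3 with j
      have := j.2
      simp only [g]; split_ifs <;> first | rfl | omega
    · convert h2 i using 3 with j
      simp only [g]; split_ifs <;> first | rfl | omega
  refine (nec h3 0).2.2 ⟨by simp [g], fun u hu => ⟨z u, ?_, hz u hu⟩, ?_⟩
  · simp only [g]
    rw [if_neg (by omega), if_neg (by omega), if_pos (by omega)]
    congr 2; omega
  · simp only [g]
    rw [if_neg (by omega), if_neg (by omega), if_neg (by omega)]

lemma many {n : ℕ} {ε : Fin n → L k → Option (Fin n)} (h : pres ε = pres δ) : k ≤ n := by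
  have : ∀ j : Fin k, (fun _ => L.d j) ∈ pres ε := fun j =>
    h ▸ ⟨fun _ => .e j, fun _ => by simp [δ]⟩
  choose v hv using this
  have := Fintype.card_le_of_injective (fun j => v j 0) fun i j hij => by
    have hij : v i 0 = v j 0 := hij
    have : (fun m : ℤ => if m < 0 then L.d i else L.d j) ∈ pres δ :=
      h ▸ ⟨fun m => if m ≤ 0 then v i m else v j m, fun m => by
        rcases lt_trichotomy m 0 with h1 | rfl | h1
        · simp only [if_pos h1, if_pos h1.le, if_pos (show m + 1 ≤ 0 by omega), hv]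
        · simp [hij, hv]
        · simp only [if_neg h1.not_gt, if_neg h1.not_ge, if_neg (show ¬ m + 1 ≤ 0 by omega), hv]⟩
    simpa using ((nec this (-1)).2.1 j).2 (by simp)
  simpa using this

lemma small : ∃ n ≤ 4 * k + 1, ∃ ε : Fin n → L k → Option (Fin n), pres ε = pres δ := by
  let e := Fintype.equivFin (S k)
  refine ⟨_, ?_, fun v l => (δ (e.symm v) l).map e, Set.ext fun x =>
    ⟨fun ⟨v, hv⟩ => ⟨fun i => e.symm (v i), fun i => ?_⟩,
      fun ⟨v, hv⟩ => ⟨fun i => e (v i), fun i => by simp [hv]⟩⟩⟩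
  · have := Fintype.card_le_of_injective (fun s : S k => (match s with
      | .s i => some (i, none) | .t i β => some (i, some (some β)) | .z => none
      | .e i => some (i, some none) : Option (Fin k × Option (Option Bool))))
      (by rintro (_ | _ | _ | _) (_ | _ | _ | _) <;> simp)
    simp at this; omega
  · obtain ⟨w, h1, h2⟩ := Option.map_eq_some_iff.1 (hv i)
    simp [h1, ← h2]

theorem result : ∃ c : ℝ, 0 < c ∧ ∃ (A : ℕ → Type) (_ : ∀ k, Finite (A k))
    (X : ∀ k, Set (ℤ → A k)), (∀ k, ∃ M, IsStep (X k) M) ∧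
      Tendsto (fun k => sd (X k)) atTop atTop ∧
      ∀ k, (2 : ℝ) ^ (c * sd (X k)) ≤ minStep (X k) := by
  refine ⟨1 / 5, by norm_num, fun k => L (k + 1), inferInstance, fun k => pres δ,
    fun k => ⟨_, isStep⟩, tendsto_atTop_mono (fun k => ?_) tendsto_id, fun k => ?_⟩
  · obtain ⟨n, -, h⟩ := small (k := k + 1)
    obtain ⟨ε, hε⟩ := Nat.sInf_mem (s := {n | ∃ ε : Fin n → L (k + 1) → Option (Fin n),
      pres ε = pres δ}) ⟨n, h⟩
    exact (Nat.le_succ k).trans (many hε)
  · obtain ⟨n, hn, h⟩ := small (k := k + 1)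
    have h1 : sd (pres (δ (k := k + 1))) ≤ 5 * (k + 1) := (Nat.sInf_le h).trans (by omega)
    have h2 : 2 ^ (k + 1) ≤ minStep (pres (δ (k := k + 1))) :=
      long (Nat.sInf_mem (s := {M | IsStep (pres (δ (k := k + 1))) M}) ⟨_, isStep⟩)
    refine le_trans ?_ (Nat.cast_le.2 h2)
    rw [Nat.cast_pow, ← Real.rpow_natCast]
    have : (sd (pres (δ (k := k + 1))) : ℝ) ≤ (5 * (k + 1) : ℕ) := Nat.cast_le.2 h1
    push_cast at this ⊢
    exact Real.rpow_le_rpow_of_exponent_le (by norm_num) (by linarith)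

end Pool.Agent.Results.MP_bb9d96_lc.Tight
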